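import Pool.Agent.E8helper87.CN.Stm

/-! Piece SUM3 of the project CN. -/

set_option autoImplicit false

namespace Pool.Agent.E8helper85.CN

open Pool.Agent.Y692.QS (Ei w nr)
open Pool.Agent.E8helper87.CN

lemma sum_u : Summable fun n : ℤ => ((1 + |(n : ℝ)|) ^ 2)⁻¹ := by
  have h : Summable fun n : ℕ => ((1 + (n : ℝ)) ^ 2)⁻¹ := by
    have h1 : Summable fun n : ℕ => (((n + 1 : ℕ) : ℝ) ^ 2)⁻¹ :=
      (summable_nat_add_iff (f := fun n : ℕ => ((n : ℝ) ^ 2)⁻¹) 1).2
        (Real.summable_nat_pow_inv.2 (by norm_num))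
    refine h1.congr fun n => ?_
    push_cast
    rw [add_comm]
  rw [summable_int_iff_summable_nat_and_neg]
  constructor
  · refine h.congr fun n => ?_
    simp
  · refine h.congr fun n => ?_
    simp

lemma key (a b : ℤ) (h : a ≠ 0 ∨ b ≠ 0) :
    (1 + |a|) * (1 + |b|) ≤ 8 * (a ^ 2 - a * b + b ^ 2) := by
  have h1 : a * b ≤ |a| * |b| := by
    rw [← abs_mul]
    exact le_abs_self _
  have h2 : a ^ 2 = |a| ^ 2 := (sq_abs a).symm
  have h3 : b ^ 2 = |b| ^ 2 := (sq_abs b).symm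
  have h4 : 1 ≤ |a| + |b| := by
    rcases h with h | h
    · have := Int.one_le_abs h
      have := abs_nonneg b
      linarith
    · have := Int.one_le_abs h
      have := abs_nonneg a
      linarith
  have h5 : |a| ≤ |a| ^ 2 := by
    have := abs_nonneg a
    rcases eq_or_lt_of_le this with h | h
    · rw [← h]; norm_num
    · nlinarith
  have h6 : |b| ≤ |b| ^ 2 := by
    have := abs_nonneg b
    rcases eq_or_lt_of_le this with h | h
    · rw [← h]; norm_num
    · nlinarith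
  rw [h2, h3]
  nlinarith [sq_nonneg (|a| - |b|)]

theorem t_SUM3 : S_SUM3 := by
  have h1 : Summable fun p : ℤ × ℤ => ((1 + |(p.1 : ℝ)|) ^ 2)⁻¹ * ((1 + |(p.2 : ℝ)|) ^ 2)⁻¹ :=
    sum_u.mul_of_nonneg sum_u (fun n => by positivity) (fun n => by positivity)
  have h2 : Function.Injective fun z : Ei => (z.re, z.im) := by
    intro x y h
    cases x
    cases y
    simpa using h
  have h3 := (h1.comp_injective h2).mul_left 64
  refine Summable.of_nonneg_of_le (fun z => ?_) (fun z => ?_) h3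
  · have h0 : (0 : ℝ) ≤ nr z := by
      have : 0 ≤ nr z := by
        unfold nr
        nlinarith [sq_nonneg (z.re - z.im), sq_nonneg (z.re + z.im)]
      exact_mod_cast this
    positivity
  · by_cases hz : z.re ≠ 0 ∨ z.im ≠ 0
    · have h4 := key z.re z.im hz
      have h5 : nr z = z.re ^ 2 - z.re * z.im + z.im ^ 2 := by
        unfold nr
        ring
      rw [← h5] at h4
      have h6 : (1 + |(z.re : ℝ)|) * (1 + |(z.im : ℝ)|) ≤ 8 * (nr z : ℝ) := by
        exact_mod_cast h4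
      have h7 : (1 : ℝ) ≤ nr z := by
        have h8 : 1 ≤ (1 + |z.re|) * (1 + |z.im|) := by
          nlinarith [abs_nonneg z.re, abs_nonneg z.im, mul_nonneg (abs_nonneg z.re) (abs_nonneg z.im)]
        have h9 : 0 < nr z := by linarith
        exact_mod_cast h9
      have ha : (0 : ℝ) ≤ |(z.re : ℝ)| := abs_nonneg _
      have hb : (0 : ℝ) ≤ |(z.im : ℝ)| := abs_nonneg _
      have h8 : ((1 + |(z.re : ℝ)|) * (1 + |(z.im : ℝ)|)) ^ 2 ≤ 64 * (nr z : ℝ) ^ 3 := by
        have h9 : ((1 + |(z.re : ℝ)|) * (1 + |(z.im : ℝ)|)) ^ 2 ≤ (8 * (nr z : ℝ)) ^ 2 :=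
          pow_le_pow_left₀ (by positivity) h6 2
        have h10 : (nr z : ℝ) ^ 2 ≤ (nr z : ℝ) ^ 3 := pow_le_pow_right₀ h7 (by norm_num)
        nlinarith
      show ((nr z : ℝ) ^ 3)⁻¹ ≤
        64 * (((1 + |(z.re : ℝ)|) ^ 2)⁻¹ * ((1 + |(z.im : ℝ)|) ^ 2)⁻¹)
      rw [← mul_inv, ← mul_pow, ← div_eq_mul_inv, inv_eq_one_div, div_le_div_iff₀ (by positivity)
        (by positivity), one_mul]
      exact h8
    · push Not at hz
      have h5 : nr z = 0 := by
        unfold nr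
        rw [hz.1, hz.2]
        ring
      show ((nr z : ℝ) ^ 3)⁻¹ ≤
        64 * (((1 + |(z.re : ℝ)|) ^ 2)⁻¹ * ((1 + |(z.im : ℝ)|) ^ 2)⁻¹)
      rw [h5]
      norm_num
      positivity

end Pool.Agent.E8helper85.CN
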